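import Pool.Agent.H75.PRL.S5
import Pool.Agent.H59.RZ.NU

/-! # PRL, module NUP: upper bound for the number of matrices -/

set_option autoImplicit false

namespace Pool.PRL

open Polynomial Matrix Pool.AVR Pool.AVS Pool.RZ

namespace NUP

lemma z2 (a : ZMod 2) : a = 0 ∨ a = 1 := by
  revert a
  decide

section

variable {F : Type} [Field F]

open Classical in
/-- The modulus at `P`. -/
noncomputable def mo (T : Finset F[X]) (y : F[X] → Ty) (P : F[X]) : F[X] :=
  if P ∈ T then (if (y P).1 = 1 then P ^ 4 else P) else P ^ 2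

open Classical in
/-- The exponent at `P`. -/
noncomputable def ex' (T : Finset F[X]) (y : F[X] → Ty) (P : F[X]) : ℕ :=
  if P ∈ T then (if (y P).1 = 1 then 4 else 1) else 2

lemma mo_eq (T : Finset F[X]) (y : F[X] → Ty) (P : F[X]) : mo T y P = P ^ ex' T y P := by
  unfold mo ex'
  split_ifs <;> simp

lemma ex'_pos (T : Finset F[X]) (y : F[X] → Ty) (P : F[X]) : ex' T y P ≠ 0 := by
  unfold ex'
  split_ifs <;> simp

/-- The condition at `P`, for integral matrices. -/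
def Cd (T : Finset F[X]) (y : F[X] → Ty) (d P : F[X]) (B : Matrix (Fin 3) (Fin 3) F[X]) : Prop :=
  (P ∈ T → (y P).1 = 1 → Bᵀ = B ∧ BSh P B ∧ ∃ f : F[X] × F[X] × F[X], T12P P f ∧
    ia B = d * f.1 ∧ ib B = d ^ 2 * f.2.1 ∧ ic B = d ^ 3 * f.2.2) ∧
  (P ∈ T → (y P).1 ≠ 1 → T12P P (ia B, ib B, ic B) ∧ (y P = (0, 0) → TrP P B) ∧
    (y P = (0, 1) → ¬ TrP P B)) ∧
  (P ∉ T → B.map (AdjoinRoot.mk (P ^ 2)) ∈ NUM.Good (AdjoinRoot (P ^ 2)))

/-- The good matrices modulo `M`. -/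
def Wm (T U : Finset F[X]) (y : F[X] → Ty) (d M : F[X]) :
    Set (Matrix (Fin 3) (Fin 3) (AdjoinRoot M)) :=
  {B | Bᵀ = B ∧ ∀ P ∈ U, M = mo T y P → ∃ B0 : Matrix (Fin 3) (Fin 3) F[X],
    B0.map (AdjoinRoot.mk M) = B ∧ Cd T y d P B0}

lemma Wm_sub (T U : Finset F[X]) (y : F[X] → Ty) (d P : F[X]) (hP : P ∈ U)
    (B : Matrix (Fin 3) (Fin 3) (AdjoinRoot (mo T y P))) (hB : B ∈ Wm T U y d (mo T y P)) :
    ∃ B0 : Matrix (Fin 3) (Fin 3) F[X], B0.map (AdjoinRoot.mk (mo T y P)) = B ∧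
      Cd T y d P B0 := hB.2 P hP rfl

lemma card4 (T U : Finset F[X]) (y : F[X] → Ty) (d P M : F[X]) (hP : P ∈ U) (hPT : P ∈ T)
    (hy : (y P).1 = 1) (hM : M = mo T y P) (hM4 : M = P ^ 4) (hfin : Finite (AdjoinRoot M)) :
    (Wm T U y d M).ncard ≤ (W4 P d).ncard := by
  subst hM4
  refine Set.ncard_le_ncard ?_ (Set.toFinite _)
  intro B hB
  obtain ⟨B0, rfl, h1, -, -⟩ := hB.2 P hP hM
  obtain ⟨h3, h4, f, h5, h6, h7, h8⟩ := h1 hPT hy
  exact ⟨B0, rfl, h3, h4, f, h5, h6, h7, h8⟩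

lemma card1 (T U : Finset F[X]) (y : F[X] → Ty) (d P M : F[X]) (hP : P ∈ U) (hPT : P ∈ T)
    (hy : (y P).1 ≠ 1) (hM : M = mo T y P) (hM1 : M = P) (hfin : Finite (AdjoinRoot M))
    (hc1 : ∀ f : F[X] × F[X] × F[X], T12P P f ↔
      T12R (AdjoinRoot.mk P f.1, AdjoinRoot.mk P f.2.1, AdjoinRoot.mk P f.2.2))
    (hc2 : ∀ B : Matrix (Fin 3) (Fin 3) F[X], TrP P B ↔ TrR (B.map (AdjoinRoot.mk P))) :
    (y P = (0, 0) → (Wm T U y d M).ncard ≤ {B : Matrix (Fin 3) (Fin 3) (AdjoinRoot P) | Bᵀ = B ∧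
      T12R (ia B, ib B, ic B) ∧ TrR B}.ncard) ∧
    (y P = (0, 1) → (Wm T U y d M).ncard ≤ {B : Matrix (Fin 3) (Fin 3) (AdjoinRoot P) | Bᵀ = B ∧
      T12R (ia B, ib B, ic B) ∧ ¬ TrR B}.ncard) := by
  subst hM1
  have key : ∀ B ∈ Wm T U y d M, Bᵀ = B ∧ T12R (ia B, ib B, ic B) ∧ (y M = (0, 0) → TrR B) ∧
      (y M = (0, 1) → ¬ TrR B) := by
    intro B hB
    obtain ⟨B0, rfl, -, h1, -⟩ := hB.2 M hP hM
    obtain ⟨h3, h4, h5⟩ := h1 hPT hy
    refine ⟨hB.1, ?_, ?_, ?_⟩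
    · rw [hc1] at h3
      rw [NU.ia_map, NU.ib_map, NU.ic_map]
      exact h3
    · intro h
      exact (hc2 B0).1 (h4 h)
    · intro h h'
      exact h5 h ((hc2 B0).2 h')
  constructor
  · intro h
    refine Set.ncard_le_ncard ?_ (Set.toFinite _)
    intro B hB
    obtain ⟨h1, h3, h4, -⟩ := key B hB
    exact ⟨h1, h3, h4 h⟩
  · intro h
    refine Set.ncard_le_ncard ?_ (Set.toFinite _)
    intro B hB
    obtain ⟨h1, h3, -, h4⟩ := key B hB
    exact ⟨h1, h3, h4 h⟩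

lemma card2 (T U : Finset F[X]) (y : F[X] → Ty) (d P M : F[X]) (hP : P ∈ U) (hPT : P ∉ T)
    (hM : M = mo T y P) (hM2 : M = P ^ 2) (hfin : Finite (AdjoinRoot M)) :
    (Wm T U y d M).ncard ≤ (NUM.Good (AdjoinRoot (P ^ 2))).ncard := by
  subst hM2
  refine Set.ncard_le_ncard ?_ (Set.toFinite _)
  intro B hB
  obtain ⟨B0, rfl, -, -, h1⟩ := hB.2 P hP hM
  exact h1 hPT

lemma disc_tw (d a b c : F[X]) :
    disc (d * a) (d ^ 2 * b) (d ^ 3 * c) = d ^ 6 * disc a b c := by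
  simp only [disc]
  ring

end

end NUP

open NUP in
theorem nup_thm (hEQP : Pool.AVS.EQPStmt) (hBIN : Pool.AVS.BINStmt) (hCHI : Pool.AVS.CHIStmt)
    (hLDT : Pool.AVR.LDTStmt) (hLN2 : Pool.AVR.LN2Stmt) (hCBP : CBPStmt) (hFB4 : FB4Stmt)
    (hFB2 : Pool.RZ.FB2Stmt) (hTWP : TWPStmt) : NUPStmt := by
  classical
  intro F _ _ h2 T S hT hS y hy
  have hLS := (hLN2 F).1
  have hodd : odd T y ⊆ T := Finset.filter_subset _ _
  obtain ⟨hdm, hde, hdd, hdsq, hddv⟩ := (hTWP F h2 0 T hT).1 (odd T y) hodd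
  set d : F[X] := pr (odd T y) with hd
  set U : Finset F[X] := T ∪ S with hU
  have hUi : ∀ P ∈ U, P.Monic ∧ Irreducible P := by
    intro P hP
    rcases Finset.mem_union.1 hP with h | h
    · exact ⟨(hT P h).1, (hT P h).2.1⟩
    · exact ⟨(hS P h).1, (hS P h).2.1⟩
  have hmm : ∀ P ∈ U, (mo T y P).Monic := by
    intro P hP
    rw [mo_eq]
    exact (hUi P hP).1.pow _
  have hdisj : Disjoint T S := by
    rw [Finset.disjoint_left]
    intro P h1 h3
    exact (hS P h3).2.2 h1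
  have hinj : ∀ P ∈ U, ∀ Q ∈ U, mo T y P = mo T y Q → P = Q := by
    intro P hP Q hQ h
    rw [mo_eq, mo_eq] at h
    have h1 : P ∣ Q ^ ex' T y Q := by
      rw [← h]
      exact dvd_pow_self P (ex'_pos T y P)
    have h3 : P ∣ Q := (hUi P hP).2.prime.dvd_of_dvd_pow h1
    exact eq_of_monic_of_associated (hUi P hP).1 (hUi Q hQ).1
      ((hUi P hP).2.associated_of_dvd (hUi Q hQ).2 h3)
  have hco : ∀ P ∈ U, ∀ Q ∈ U, P ≠ Q → IsCoprime (mo T y P) (mo T y Q) := by
    intro P hP Q hQ hne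
    rw [mo_eq, mo_eq]
    apply IsCoprime.pow
    rw [(hUi P hP).2.coprime_iff_not_dvd]
    intro hdv
    exact hne (eq_of_monic_of_associated (hUi P hP).1 (hUi Q hQ).1
      ((hUi P hP).2.associated_of_dvd (hUi Q hQ).2 hdv))
  set V : Finset F[X] := U.image (mo T y) with hV
  have hVm : ∀ M ∈ V, M.Monic := by
    intro M hM
    obtain ⟨P, hP, rfl⟩ := Finset.mem_image.1 hM
    exact hmm P hP
  have hVc : ∀ M ∈ V, ∀ M' ∈ V, M ≠ M' → IsCoprime M M' := by
    intro M hM M' hM' hne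
    obtain ⟨P, hP, rfl⟩ := Finset.mem_image.1 hM
    obtain ⟨Q, hQ, rfl⟩ := Finset.mem_image.1 hM'
    refine hco P hP Q hQ ?_
    rintro rfl
    exact hne rfl
  refine ⟨(∑ M ∈ V, M.natDegree) + 1, fun n m hnm => ?_⟩
  set n' : ℕ := n + d.natDegree / 2 with hn'
  have hmn : m ≤ n' := by omega
  obtain ⟨hBfin, hE⟩ := hEQP F n' m 1 V hmn le_rfl hVm hVc (by omega)
    (fun M B => if B ∈ Wm T U y d M then 1 else 0) (fun B => if B ∈ NU.Vi F then 1 else 0)
  have hq0 : (0 : ℝ) < (Nat.card F : ℝ) := by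
    exact_mod_cast (Nat.card_pos : 0 < Nat.card F)
  set q : ℝ := (Nat.card F : ℝ) with hq
  have hVne : ∀ M ∈ V, Finite (AdjoinRoot M) := fun M hM => H10DNF.adj_finite (hVm M hM)
  -- the left hand side
  have hlow : ({B : Matrix (Fin 3) (Fin 3) F[X] | Bd n' m B ∧ (∃ f ∈ FmT F n T,
      (AA F[X] * B).charpoly = cubP (tw d f)) ∧ LocY T y B}.ncard : ℝ) ≤
      ∑ᶠ B ∈ {B : Matrix (Fin 3) (Fin 3) F[X] | Bd n' m B},
        (∏ M ∈ V, (if B.map (AdjoinRoot.mk M) ∈ Wm T U y d M then (1 : ℝ) else 0)) *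
          (if (Binf n' m B).map (AdjoinRoot.mk (X ^ 1)) ∈ NU.Vi F then 1 else 0) := by
    set L : Set (Matrix (Fin 3) (Fin 3) F[X]) := {B : Matrix (Fin 3) (Fin 3) F[X] | Bd n' m B ∧
      (∃ f ∈ FmT F n T, (AA F[X] * B).charpoly = cubP (tw d f)) ∧ LocY T y B} with hL
    have hLfin : L.Finite := hBfin.subset fun B hB => hB.1
    rw [finsum_mem_eq_finite_toFinset_sum _ hBfin, Set.ncard_eq_toFinset_card L hLfin,
      Finset.card_eq_sum_ones, Nat.cast_sum]
    have hsub : hLfin.toFinset ⊆ hBfin.toFinset := by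
      intro B hB
      rw [Set.Finite.mem_toFinset] at hB ⊢
      exact hB.1
    refine le_trans (Finset.sum_le_sum ?_) (Finset.sum_le_sum_of_subset_of_nonneg hsub ?_)
    · intro B hB
      rw [Set.Finite.mem_toFinset] at hB
      obtain ⟨hB1, ⟨f, hf, hch⟩, hlo⟩ := hB
      obtain ⟨hb1, -, hb3, hb4, hb5, -⟩ := hBIN F n' m hmn B hB1
      obtain ⟨hia, hib, hic⟩ := ((hCHI F[X] B hB1.1).2 (tw d f).1 (tw d f).2.1 (tw d f).2.2).mp hch
      have hfe : (ia B, ib B, ic B) = tw d f := by rw [hia, hib, hic]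
      obtain ⟨-, -, -, -, -, hsq, -, htw⟩ := (hTWP F h2 n T hT).2 f hf
      obtain ⟨-, -, hNR, hT12, -⟩ := htw (odd T y) hodd
      have hW : ∀ M ∈ V, B.map (AdjoinRoot.mk M) ∈ Wm T U y d M := by
        intro M hM
        refine ⟨?_, ?_⟩
        · rw [← Matrix.transpose_map, hB1.1]
        · intro P hP hMP
          refine ⟨B, rfl, ?_, ?_, ?_⟩
          · intro hPT hy1
            have hyP : y P = (1, 0) := by
              rcases z2 (y P).2 with h | h
              · exact Prod.ext hy1 h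
              · exact absurd (Prod.ext hy1 h) (hy P hPT)
            refine ⟨hB1.1, (hlo P hPT).2.2 hyP, f, hf.2.1 P hPT, hia, hib, hic⟩
          · intro hPT hy1
            refine ⟨?_, (hlo P hPT).1, (hlo P hPT).2.1⟩
            rw [hfe]
            refine hT12 P hPT ?_
            intro h
            exact hy1 (Finset.mem_filter.1 h).2
          · intro hPT
            have hP' := hUi P hP
            refine NUM.good_of (a := AdjoinRoot.mk (P ^ 2) (tw d f).1)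
              (b := AdjoinRoot.mk (P ^ 2) (tw d f).2.1)
              (c := AdjoinRoot.mk (P ^ 2) (tw d f).2.2) ?_ ?_ ?_
            · rw [← Matrix.transpose_map, hB1.1]
            · exact NUM.charpoly_map (AdjoinRoot.mk (P ^ 2)) B hch
            · rw [NUM.disc_map (AdjoinRoot.mk (P ^ 2))]
              intro h0
              rw [AdjoinRoot.mk_eq_zero] at h0
              have h3 : disc (tw d f).1 (tw d f).2.1 (tw d f).2.2 =
                  d ^ 6 * disc f.1 f.2.1 f.2.2 := disc_tw d f.1 f.2.1 f.2.2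
              rw [h3] at h0
              have hPd : ¬ P ∣ d := by
                intro h
                exact hPT (hodd ((hddv P hP'.1 hP'.2).1 h))
              have hcop : IsCoprime (P ^ 2) (d ^ 6) :=
                IsCoprime.pow ((hP'.2.coprime_iff_not_dvd).2 hPd)
              exact hsq P hP'.2 (hcop.dvd_of_dvd_mul_left h0)
      have hV' : (Binf n' m B).map (AdjoinRoot.mk (X ^ 1)) ∈ NU.Vi F := by
        refine ⟨?_, Binf n' m B, rfl, ?_⟩
        · rw [← Matrix.transpose_map, hb1]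
        · unfold NU.CondI
          have hco : ∀ (k : ℕ) (p : F[X]), (p.reflect k).eval 0 = p.coeff k := by
            intro k p
            rw [← coeff_zero_eq_eval_zero, coeff_reflect, revAt_le (Nat.zero_le k), Nat.sub_zero]
          have : evc 0 (ia (Binf n' m B), ib (Binf n' m B), ic (Binf n' m B)) =
              top3 n' (tw d f) := by
            unfold evc top3
            rw [hb3, hb4, hb5]
            simp only [hco, hia, hib, hic]
          rw [this]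
          exact hNR
      rw [Finset.prod_congr rfl (fun M hM => if_pos (hW M hM)), Finset.prod_const_one, if_pos hV']
      simp
    · intro B _ _
      refine mul_nonneg (Finset.prod_nonneg fun M _ => ?_) ?_
      · split_ifs <;> norm_num
      · split_ifs <;> norm_num
  refine hlow.trans ?_
  rw [hE]
  have hXfin : Finite (AdjoinRoot ((X : F[X]) ^ 1)) := H10DNF.adj_finite (monic_X_pow 1)
  have hsV : ∑ᶠ B ∈ {B : Matrix (Fin 3) (Fin 3) (AdjoinRoot ((X : F[X]) ^ 1)) | Bᵀ = B},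
      (if B ∈ NU.Vi F then (1 : ℝ) else 0) = (NU.Vi F).ncard :=
    NU.ind_sum _ _ (fun B hB => hB.1)
  have hsW : ∀ M ∈ V, ∑ᶠ B ∈ {B : Matrix (Fin 3) (Fin 3) (AdjoinRoot M) | Bᵀ = B},
      (if B ∈ Wm T U y d M then (1 : ℝ) else 0) = (Wm T U y d M).ncard := by
    intro M hM
    have := hVne M hM
    exact NU.ind_sum _ _ (fun B hB => hB.1)
  rw [hsV, Finset.prod_congr rfl (fun M hM => by rw [hsW M hM] :
    ∀ M ∈ V, (∑ᶠ B ∈ {B : Matrix (Fin 3) (Fin 3) (AdjoinRoot M) | Bᵀ = B},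
      (if B ∈ Wm T U y d M then (1 : ℝ) else 0)) / q ^ (6 * M.natDegree) =
      ((Wm T U y d M).ncard : ℝ) / q ^ (6 * M.natDegree))]
  rw [hV, Finset.prod_image hinj, hU, Finset.prod_union hdisj, ← hU]
  set R : ℝ := (({t : F × F × F | NR t}.ncard : ℕ) : ℝ) with hR
  have hR0 : 0 ≤ R := by rw [hR]; positivity
  have hq1 : (1 : ℝ) ≤ q := by
    rw [hq]
    exact_mod_cast (Nat.card_pos : 0 < Nat.card F)
  have hle3 : Nat.card F ≤ Nat.card F ^ 3 := Nat.le_self_pow (by norm_num) _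
  have hcast : ((Nat.card F ^ 3 - Nat.card F : ℕ) : ℝ) = q ^ 3 - q := by
    rw [Nat.cast_sub hle3, Nat.cast_pow]
  have hVc' : ((NU.Vi F).ncard : ℝ) / q ^ (6 * 1) ≤ R / q ^ 3 * (1 - 1 / q ^ 2) := by
    have h1 := (Nat.cast_le (α := ℝ)).2 (NU.Vi_card (F := F) hFB2 h2)
    rw [Nat.cast_mul, hcast] at h1
    rw [div_le_iff₀ (by positivity)]
    refine h1.trans (le_of_eq ?_)
    rw [← hR]
    field_simp
    ring
  have hpos1 : ∀ k : ℕ, 0 ≤ 1 - 1 / q ^ k := by
    intro k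
    rw [sub_nonneg, div_le_one (by positivity)]
    exact one_le_pow₀ hq1
  -- primes of `T`
  have hTb : ∀ P ∈ T, ((Wm T U y d (mo T y P)).ncard : ℝ) / q ^ (6 * (mo T y P).natDegree) ≤
      (if (y P).1 = 1 then (q ^ (6 * P.natDegree))⁻¹ else 1) *
        ((q ^ P.natDegree - 1) / (2 * q ^ P.natDegree) / 2 * (1 - 1 / q ^ (2 * P.natDegree))) := by
    intro P hP
    have hPU : P ∈ U := Finset.mem_union_left _ hP
    have hPm := (hUi P hPU).1
    have hPi := (hUi P hPU).2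
    have hfin : Finite (AdjoinRoot (mo T y P)) := H10DNF.adj_finite (hmm P hPU)
    set r : ℝ := q ^ P.natDegree with hr
    have hr0 : 0 < r := by rw [hr]; positivity
    by_cases hy1 : (y P).1 = 1
    · have hmP : mo T y P = P ^ 4 := by
        unfold mo
        rw [if_pos hP, if_pos hy1]
      have hPd : P ∣ d := (hddv P hPm hPi).2 (Finset.mem_filter.2 ⟨hP, hy1⟩)
      have h1 := hFB4 F h2 P hPm hPi d hPd (hdsq P hPi)
      have h3 : ((Wm T U y d (mo T y P)).ncard : ℝ) ≤ ((W4 P d).ncard : ℝ) := by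
        exact_mod_cast card4 T U y d P (mo T y P) hPU hP hy1 rfl hmP hfin
      have h4 : q ^ (6 * (mo T y P).natDegree) = r ^ 24 := by
        rw [hmP, natDegree_pow, hr, ← pow_mul]
        congr 1
        ring
      rw [if_pos hy1, h4, div_le_iff₀ (by positivity)]
      have e1 : q ^ (2 * P.natDegree) = r ^ 2 := by rw [hr, ← pow_mul, mul_comm]
      have e2 : q ^ (13 * P.natDegree) = r ^ 13 := by rw [hr, ← pow_mul, mul_comm]
      have e3 : q ^ (3 * P.natDegree) = r ^ 3 := by rw [hr, ← pow_mul, mul_comm]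
      have e6 : q ^ (6 * P.natDegree) = r ^ 6 := by rw [hr, ← pow_mul, mul_comm]
      rw [← hq, e1, e2, e3] at h1
      rw [e1, e6]
      have e5 : (r ^ 6)⁻¹ * ((r - 1) / (2 * r) / 2 * (1 - 1 / r ^ 2)) * r ^ 24 =
          (r ^ 2 - 1) * r ^ 13 * (r ^ 3 - r ^ 2) / 4 := by
        field_simp
        ring
      rw [e5]
      linarith
    · have hmP : mo T y P = P := by
        unfold mo
        rw [if_pos hP, if_neg hy1]
      obtain ⟨hc1, hc2, -, hc4, hc5⟩ := hCBP F h2 P hPm hPi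
      obtain ⟨hk1, hk2⟩ := card1 T U y d P (mo T y P) hPU hP hy1 rfl hmP hfin hc1 hc2
      have h4 : q ^ (6 * (mo T y P).natDegree) = r ^ 6 := by
        rw [hmP, hr, ← pow_mul]
        congr 1
        ring
      have e1 : q ^ (2 * P.natDegree) = r ^ 2 := by rw [hr, ← pow_mul, mul_comm]
      have e3 : q ^ (3 * P.natDegree) = r ^ 3 := by rw [hr, ← pow_mul, mul_comm]
      rw [← hq, e1, e3, ← hr] at hc4 hc5
      have h5 : 4 * ((Wm T U y d (mo T y P)).ncard : ℝ) ≤ (r ^ 3 - r) * (r ^ 3 - r ^ 2) := by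
        have hy0 : (y P).1 = 0 := (z2 (y P).1).resolve_right hy1
        rcases z2 (y P).2 with h | h
        · have := (Nat.cast_le (α := ℝ)).2 (hk1 (Prod.ext hy0 h))
          linarith
        · have := (Nat.cast_le (α := ℝ)).2 (hk2 (Prod.ext hy0 h))
          linarith
      rw [if_neg hy1, h4, div_le_iff₀ (by positivity), e1]
      have e5 : 1 * ((r - 1) / (2 * r) / 2 * (1 - 1 / r ^ 2)) * r ^ 6 =
          (r ^ 3 - r) * (r ^ 3 - r ^ 2) / 4 := by
        field_simp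
        ring
      rw [e5]
      linarith
  -- primes of `S`
  have hSb : ∀ P ∈ S, ((Wm T U y d (mo T y P)).ncard : ℝ) / q ^ (6 * (mo T y P).natDegree) ≤
      dens (AdjoinRoot (P ^ 2)) * (1 - 1 / q ^ (2 * P.natDegree)) := by
    intro P hP
    have hPU : P ∈ U := Finset.mem_union_right _ hP
    have hPT : P ∉ T := (hS P hP).2.2
    have hmP : mo T y P = P ^ 2 := by
      unfold mo
      rw [if_neg hPT]
    have hfin : Finite (AdjoinRoot (mo T y P)) := H10DNF.adj_finite (hmm P hPU)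
    obtain ⟨hL, hFi, hr⟩ := hLS P (hS P hP).1 (hS P hP).2.1
    have h2' : IsUnit (2 : AdjoinRoot (P ^ 2)) := by
      have h5 : IsUnit (algebraMap F (AdjoinRoot (P ^ 2)) 2) :=
        (isUnit_iff_ne_zero.2 h2).map _
      rw [map_ofNat] at h5
      exact h5
    have h6 := NUM.good_card hLDT (AdjoinRoot.mk (P ^ 2) P) hL h2'
    have hcardR : (Nat.card (AdjoinRoot (P ^ 2)) : ℝ) = q ^ (2 * P.natDegree) := by
      rw [NUM.card_eq hLDT (AdjoinRoot.mk (P ^ 2) P) hL h2', hr]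
      push_cast
      rw [← pow_mul, mul_comm]
    rw [hcardR] at h6
    have h8 : ((Wm T U y d (mo T y P)).ncard : ℝ) ≤ ((NUM.Good (AdjoinRoot (P ^ 2))).ncard : ℝ) := by
      exact_mod_cast card2 T U y d P (mo T y P) hPU hPT rfl hmP hfin
    rw [div_le_iff₀ (by positivity)]
    refine (h8.trans h6).trans (le_of_eq ?_)
    rw [hmP, natDegree_pow, ← pow_mul, mul_comm]
    congr 2
    ring
  have hPT0 : ∀ P ∈ T, 0 ≤ ((Wm T U y d (mo T y P)).ncard : ℝ) /
      q ^ (6 * (mo T y P).natDegree) := fun P _ => by positivity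
  have hA := Finset.prod_le_prod hPT0 hTb
  have hB := Finset.prod_le_prod (fun P _ => by positivity) hSb
  rw [Finset.prod_mul_distrib] at hA
  have hQ : ∏ P ∈ T, (if (y P).1 = 1 then (q ^ (6 * P.natDegree))⁻¹ else (1 : ℝ)) =
      (q ^ (6 * d.natDegree))⁻¹ := by
    rw [← Finset.prod_filter]
    have : T.filter (fun P => (y P).1 = 1) = odd T y := rfl
    rw [this, Finset.prod_inv_distrib, Finset.prod_pow_eq_pow_sum, ← Finset.mul_sum, ← hdd]
  rw [hQ] at hA
  have hA0 : 0 ≤ (q ^ (6 * d.natDegree))⁻¹ * ∏ P ∈ T, ((q ^ P.natDegree - 1) /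
      (2 * q ^ P.natDegree) / 2 * (1 - 1 / q ^ (2 * P.natDegree))) :=
    (Finset.prod_nonneg hPT0).trans hA
  have hB0 : 0 ≤ ∏ P ∈ S, ((Wm T U y d (mo T y P)).ncard : ℝ) /
      q ^ (6 * (mo T y P).natDegree) := Finset.prod_nonneg fun P _ => by positivity
  have hKK := mul_le_mul hA hB hB0 hA0
  have hdd2 : 12 * n' + 6 = (12 * n + 6) + 6 * d.natDegree := by
    obtain ⟨k, hk⟩ := hde
    rw [hn', hk]
    omega
  have hfin : q ^ (12 * n' + 6) * ((q ^ (6 * d.natDegree))⁻¹ * (∏ P ∈ T, ((q ^ P.natDegree - 1) /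
      (2 * q ^ P.natDegree) / 2 * (1 - 1 / q ^ (2 * P.natDegree)))) *
      ∏ P ∈ S, (dens (AdjoinRoot (P ^ 2)) * (1 - 1 / q ^ (2 * P.natDegree)))) *
      (R / q ^ 3 * (1 - 1 / q ^ 2)) =
      q ^ (12 * n + 6) * (ddT F T S / 2 ^ T.card * (1 - 1 / q ^ 2)) *
        ((∏ P ∈ T, (1 - 1 / q ^ (2 * P.natDegree))) *
          ∏ P ∈ S, (1 - 1 / q ^ (2 * P.natDegree))) := by
    have hTT : ∏ P ∈ T, ((q ^ P.natDegree - 1) / (2 * q ^ P.natDegree) / 2 *
        (1 - 1 / q ^ (2 * P.natDegree))) =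
        (∏ P ∈ T, (q ^ P.natDegree - 1) / (2 * q ^ P.natDegree)) / 2 ^ T.card *
          ∏ P ∈ T, (1 - 1 / q ^ (2 * P.natDegree)) := by
      rw [Finset.prod_mul_distrib]
      congr 1
      rw [Finset.prod_div_distrib, Finset.prod_const]
    unfold ddT d3
    rw [hTT, hdd2, pow_add, Finset.prod_mul_distrib, ← hq, ← hR]
    have hne : q ^ (6 * d.natDegree) ≠ 0 := by positivity
    generalize (∏ P ∈ T, (q ^ P.natDegree - 1) / (2 * q ^ P.natDegree)) = x1
    generalize (∏ P ∈ T, (1 - 1 / q ^ (2 * P.natDegree))) = x2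
    generalize (∏ P ∈ S, (1 - 1 / q ^ (2 * P.natDegree))) = x3
    generalize (∏ P ∈ S, dens (AdjoinRoot (P ^ 2))) = x4
    generalize q ^ (12 * n + 6) = x5
    generalize q ^ (6 * d.natDegree) = x6 at hne ⊢
    generalize R / q ^ 3 = x7
    generalize 1 / q ^ 2 = x8
    generalize (2 : ℝ) ^ T.card = x9
    field_simp
  rw [← hfin]
  refine mul_le_mul (mul_le_mul_of_nonneg_left hKK (by positivity)) hVc' (by positivity) ?_
  refine mul_nonneg (by positivity) (mul_nonneg hA0 ?_)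
  exact hB0.trans hB

end Pool.PRL
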